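import Mathlib
import Pool.Agent.Helper495.SB.Final

set_option autoImplicit false

namespace Pool.Agent.Results.MP_1eafec_an.BallSphereClass

open Pool.Agent.Helper495.SB Set Metric MeasureTheory

open scoped ZeroAtInfty

/-- Let `X` be a real normed space whose unit sphere is uniformly homeomorphic to the unit sphere of
`Z × Y`, where `Z` is any normed space and `Y` is either a space which contains an isomorphic copy of
`c₀` and whose unit sphere is uniformly homeomorphic to that of `Y × ℝ` (for instance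
`Y × ℝ` isomorphic to `Y`), or isomorphic to an infinite-dimensional `L^p(μ)` with `1 ≤ p < ∞`.
Then the unit sphere of `X` is uniformly homeomorphic to its closed unit ball. -/
theorem result {X Z Y α : Type*} [NormedAddCommGroup X] [NormedSpace ℝ X]
    [NormedAddCommGroup Z] [NormedSpace ℝ Z] [NormedAddCommGroup Y] [NormedSpace ℝ Y] [MeasurableSpace α]
    (hX : Nonempty (sphere (0 : X) 1 ≃ᵤ sphere (0 : Z × Y) 1))
    (hY : ((∃ (J : C₀(ℕ, ℝ) →L[ℝ] Y) (κ : ℝ), 0 < κ ∧ ∀ v, κ * ‖v‖ ≤ ‖J v‖) ∧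
        Nonempty (sphere (0 : Y) 1 ≃ᵤ sphere (0 : Y × ℝ) 1)) ∨
      ∃ (μ : Measure α) (p : ENNReal) (_ : Fact (1 ≤ p)), p ≠ ⊤ ∧ ¬ FiniteDimensional ℝ (Lp ℝ p μ) ∧
        Nonempty (Y ≃L[ℝ] Lp ℝ p μ)) :
    ∃ f : sphere (0 : X) 1 ≃ closedBall (0 : X) 1,
      UniformContinuous f ∧ UniformContinuous f.symm := by
  have hX' : SEq (univ : Set X) (univ : Set (Z × Y)) := SEq_iff.mpr hX
  have hYg : Good Y := by
    rcases hY with ⟨h1, h2⟩ | ⟨μ, p, hp1, hp, hfd, ⟨e⟩⟩
    · exact HasC0.good h1 (SEq_iff.mpr h2)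
    · exact (good_Lp hp hfd).of_SEq (SEq.univ_of_linear e)
  have h1 : Good (Y × Z) := hYg.prod Z
  have h2 : SEq (univ : Set X) (univ : Set (Y × Z)) :=
    hX'.trans (SEq.univ_of_linear (ContinuousLinearEquiv.prodComm ℝ Z Y))
  obtain ⟨f⟩ := good_iff.mp (h1.of_SEq h2)
  exact ⟨f.toEquiv, f.uniformContinuous, f.symm.uniformContinuous⟩

end Pool.Agent.Results.MP_1eafec_an.BallSphereClass
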