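import Mathlib
import Pool.Agent.Helper495.SB.Absorb

set_option autoImplicit false

namespace Pool.Agent.Results.MP_1eafec_an.ComplementedCI

open Pool.Agent.Helper495.SB Set

/-- If the real normed space `X` is isomorphic to `Z × C[0,1]` for some normed space `Z`, then its unit
sphere is uniformly homeomorphic to its closed unit ball. -/
theorem result {X Z : Type*} [NormedAddCommGroup X] [NormedSpace ℝ X]
    [NormedAddCommGroup Z] [NormedSpace ℝ Z] (e : X ≃L[ℝ] Z × C(unitInterval, ℝ)) :
    ∃ f : Metric.sphere (0 : X) 1 ≃ Metric.closedBall (0 : X) 1,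
      UniformContinuous f ∧ UniformContinuous f.symm := by
  have h1 : Good (CI × Z) := good_CI.prod Z
  have h2 : SEq (univ : Set X) (univ : Set (CI × Z)) :=
    SEq.univ_of_linear (e.trans (ContinuousLinearEquiv.prodComm ℝ Z CI))
  obtain ⟨f⟩ := good_iff.mp (h1.of_SEq h2)
  exact ⟨f.toEquiv, f.uniformContinuous, f.symm.uniformContinuous⟩

end Pool.Agent.Results.MP_1eafec_an.ComplementedCI
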