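import Mathlib
import Pool.Agent.Helper495.SB.Final

set_option autoImplicit false

namespace Pool.Agent.Results.MP_1eafec_an.ContainsC0

open Pool.Agent.Helper495.SB Set Metric

open scoped ZeroAtInfty

/-- Let the real normed space `X` contain an isomorphic copy of `c₀`. Then the closed unit ball of `X` is
uniformly homeomorphic to the unit sphere of `X × ℝ` (max norm); and the unit sphere of `X` is uniformly
homeomorphic to the closed unit ball of `X` if and only if it is uniformly homeomorphic to the unit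
sphere of `X × ℝ`. -/
theorem result {X : Type*} [NormedAddCommGroup X] [NormedSpace ℝ X]
    (J : C₀(ℕ, ℝ) →L[ℝ] X) {κ : ℝ} (hκ : 0 < κ) (hJ : ∀ v, κ * ‖v‖ ≤ ‖J v‖) :
    (∃ f : closedBall (0 : X) 1 ≃ sphere (0 : X × ℝ) 1, UniformContinuous f ∧ UniformContinuous f.symm) ∧
    ((∃ f : sphere (0 : X) 1 ≃ closedBall (0 : X) 1, UniformContinuous f ∧ UniformContinuous f.symm) ↔
      (∃ f : sphere (0 : X) 1 ≃ sphere (0 : X × ℝ) 1, UniformContinuous f ∧ UniformContinuous f.symm)) := by
  have h : HasC0 X := ⟨J, κ, hκ, hJ⟩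
  have conv : ∀ {A B : Type _} [UniformSpace A] [UniformSpace B],
      Nonempty (A ≃ᵤ B) ↔ ∃ f : A ≃ B, UniformContinuous f ∧ UniformContinuous f.symm := by
    intro A B _ _
    constructor
    · rintro ⟨f⟩; exact ⟨f.toEquiv, f.uniformContinuous, f.symm.uniformContinuous⟩
    · rintro ⟨f, h1, h2⟩; exact ⟨⟨f, h1, h2⟩⟩
  rw [← conv, ← conv, ← conv]
  exact ⟨h.ball, h.iff⟩

end Pool.Agent.Results.MP_1eafec_an.ContainsC0
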