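import Mathlib
import Pool.Agent.Helper495.SB.Main

set_option autoImplicit false

namespace Pool.Agent.Results.MP_1eafec_an.Hilbert

open Pool.Agent.Helper495.SB

/-- The unit sphere of every infinite-dimensional real Hilbert space is uniformly homeomorphic to its
closed unit ball. -/
theorem result {H : Type*} [NormedAddCommGroup H] [InnerProductSpace ℝ H] [CompleteSpace H]
    (hH : ¬ FiniteDimensional ℝ H) :
    ∃ f : Metric.sphere (0 : H) 1 ≃ Metric.closedBall (0 : H) 1,
      UniformContinuous f ∧ UniformContinuous f.symm := by
  obtain ⟨f⟩ := good_iff.mp (good_hilbert hH)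
  exact ⟨f.toEquiv, f.uniformContinuous, f.symm.uniformContinuous⟩

end Pool.Agent.Results.MP_1eafec_an.Hilbert
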